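import Mathlib

/-!
# MP_d71e54_al: a Fraïssé structure without structurally sharply 2-transitive actions

The structure is the generic structure with one quaternary relation that picks one linear ordering
of every set of four points.
-/

namespace Pool.Agent.Results.MP_d71e54_al.RigidQuadruples

open FirstOrder FirstOrder.Language FirstOrder.Language.Structure

universe u

/-! ### Definitions -/

/-- A class of structures has the strong amalgamation property. -/
def StrongAmalgamation {L : FirstOrder.Language.{0, 0}} (K : Set (CategoryTheory.Bundled.{0} L.Structure)) :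
    Prop :=
  ∀ (A B C : CategoryTheory.Bundled.{0} L.Structure) (f : A ↪[L] B) (g : A ↪[L] C),
    A ∈ K → B ∈ K → C ∈ K →
      ∃ (D : CategoryTheory.Bundled.{0} L.Structure) (h : B ↪[L] D) (k : C ↪[L] D), D ∈ K ∧
        (∀ a, h (f a) = k (g a)) ∧ ∀ b c, h b = k c → ∃ a, f a = b ∧ g a = c

/-- The group `G` acts on `M` by automorphisms of the relational structure `M`. -/
def ActsByAutomorphisms (L : FirstOrder.Language.{0, 0}) (G : Type u) (M : Type) [L.Structure M] [Group G]
    [MulAction G M] : Prop :=
  ∀ (g : G) (n : ℕ) (r : L.Relations n) (x : Fin n → M), RelMap r (fun i => g • x i) ↔ RelMap r x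

/-- Two tuples have the same atomic type: the coordinatewise map between them respects all
relations. -/
def SameType (L : FirstOrder.Language.{0, 0}) {M : Type} [L.Structure M] {k : ℕ} (a b : Fin k → M) : Prop :=
  ∀ (n : ℕ) (r : L.Relations n) (v : Fin n → Fin k),
    RelMap r (fun i => a (v i)) ↔ RelMap r (fun i => b (v i))

/-- The action of `G` on `M` is structurally sharply `k`-transitive. -/
def SharplyTransitive (L : FirstOrder.Language.{0, 0}) (G : Type u) (M : Type) [L.Structure M] [Group G]
    [MulAction G M] (k : ℕ) : Prop :=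
  ∀ a b : Fin k → M, Function.Injective a → Function.Injective b → SameType L a b →
    ∃! g : G, ∀ i, g • a i = b i

/-! ### The structure -/

/-- `x` enumerates the four-element set `s`. -/
def Enum (s : Finset ℕ) (x : Fin 4 → ℕ) : Prop := Function.Injective x ∧ Finset.univ.image x = s

/-- Every finite set of tuples is coded by arbitrarily large numbers. -/
theorem exists_coding : ∃ D : ℕ → Finset (Fin 4 → Option ℕ), ∀ P N, ∃ n, N < n ∧ D n = P := by
  classical
  obtain ⟨e, he⟩ := exists_surjective_nat (Finset (Fin 4 → Option ℕ))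
  refine ⟨fun n => e (Nat.unpair n).1, fun P N => ?_⟩
  obtain ⟨i, hi⟩ := he P
  refine ⟨Nat.pair i (N + 1), ?_, ?_⟩
  · exact lt_of_lt_of_le (Nat.lt_succ_self N) (Nat.right_le_pair i (N + 1))
  · simp only [Nat.unpair_pair]; exact hi

/-- The coding. -/
noncomputable def D : ℕ → Finset (Fin 4 → Option ℕ) := exists_coding.choose

theorem D_spec : ∀ P N, ∃ n, N < n ∧ D n = P := exists_coding.choose_spec

/-- Replace `n` by a mark. -/
def mark (n : ℕ) (x : Fin 4 → ℕ) : Fin 4 → Option ℕ := fun i => if x i = n then none else some (x i)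

theorem mark_injective (n : ℕ) : Function.Injective (mark n) := by
  intro x y h
  funext i
  have h1 := congrFun h i
  simp only [mark] at h1
  split_ifs at h1 with h2 h3 h3
  · rw [h2, h3]
  · exact Option.some_injective _ h1

open Classical in
/-- The chosen ordering of a four-element set. -/
noncomputable def ord (s : Finset ℕ) : Fin 4 → ℕ :=
  if h : ∃ x, Enum s x ∧ mark (s.sup id) x ∈ D (s.sup id) then h.choose
  else if h : ∃ x, Enum s x then h.choose else 0

theorem ord_enum {s : Finset ℕ} (hs : s.card = 4) : Enum s (ord s) := by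
  unfold ord
  split_ifs with h1 h2
  · exact h1.choose_spec.1
  · exact h2.choose_spec
  · exfalso
    apply h2
    refine ⟨s.orderEmbOfFin hs, (s.orderEmbOfFin hs).injective, ?_⟩
    apply Finset.coe_injective
    simp

theorem Enum.card {s : Finset ℕ} {x : Fin 4 → ℕ} (h : Enum s x) : s.card = 4 := by
  rw [← h.2, Finset.card_image_of_injective _ h.1]
  rfl

theorem Enum.mem {s : Finset ℕ} {x : Fin 4 → ℕ} (h : Enum s x) (i : Fin 4) : x i ∈ s := by
  have h1 : x i ∈ Finset.univ.image x := Finset.mem_image_of_mem _ (Finset.mem_univ i)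
  rwa [h.2] at h1

theorem Enum.exists_of_mem {s : Finset ℕ} {x : Fin 4 → ℕ} (h : Enum s x) {m : ℕ} (hm : m ∈ s) :
    ∃ i, x i = m := by
  rw [← h.2] at hm
  obtain ⟨j, _, hj⟩ := Finset.mem_image.1 hm
  exact ⟨j, hj⟩

/-- The relation. -/
def R (x : Fin 4 → ℕ) : Prop := Function.Injective x ∧ ord (Finset.univ.image x) = x

theorem R_ord {s : Finset ℕ} (hs : s.card = 4) : R (ord s) := by
  have h := ord_enum hs
  exact ⟨h.1, by rw [h.2]⟩

theorem R_unique {x y : Fin 4 → ℕ} (hx : R x) (hy : R y)
    (h : Finset.univ.image x = Finset.univ.image y) : x = y := by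
  rw [← hx.2, ← hy.2, h]

/-- **Extension property with avoidance.** -/
theorem extension (S : Finset ℕ) (f : ℕ → ℕ) (hf : Set.InjOn f S)
    (hR : ∀ y : Fin 4 → ℕ, (∀ i, y i ∈ S) → (R (fun i => f (y i)) ↔ R y))
    (m : ℕ) (hm : m ∉ S) (F : Finset ℕ) :
    ∃ f' : ℕ → ℕ, (∀ x ∈ S, f' x = f x) ∧ f' m ∉ F ∧ Set.InjOn f' (insert m S : Finset ℕ) ∧
      ∀ y : Fin 4 → ℕ, (∀ i, y i ∈ insert m S) → (R (fun i => f' (y i)) ↔ R y) := by
  classical
  let P : Finset (Fin 4 → Option ℕ) :=
    ((Fintype.piFinset (fun _ : Fin 4 => insert m S)).filter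
      (fun y => R y ∧ ∃ i, y i = m)).image
      (fun y i => if y i = m then none else some (f (y i)))
  have hP : ∀ z, z ∈ P ↔ ∃ y : Fin 4 → ℕ, (∀ i, y i ∈ insert m S) ∧ R y ∧ (∃ i, y i = m) ∧
      (fun i => if y i = m then none else some (f (y i))) = z := by
    intro z
    simp only [P, Finset.mem_image, Finset.mem_filter, Fintype.mem_piFinset]
    constructor
    · rintro ⟨y, ⟨h1, h2, h3⟩, h4⟩; exact ⟨y, h1, h2, h3, h4⟩
    · rintro ⟨y, h1, h2, h3, h4⟩; exact ⟨y, ⟨h1, h2, h3⟩, h4⟩
  obtain ⟨b, hb, hDb⟩ := D_spec P ((F ∪ S.image f).sup id)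
  have hlt : ∀ x ∈ F ∪ S.image f, x < b := fun x hx =>
    lt_of_le_of_lt (Finset.le_sup (f := id) hx) hb
  have hbf : ∀ x ∈ S, f x < b := fun x hx =>
    hlt _ (Finset.mem_union_right _ (Finset.mem_image_of_mem f hx))
  let f' : ℕ → ℕ := Function.update f m b
  have hf'm : f' m = b := Function.update_self ..
  have hf'S : ∀ x ∈ S, f' x = f x := fun x hx =>
    Function.update_of_ne (fun h => hm (by rw [← h]; exact hx)) _ _
  have hinj : Set.InjOn f' (insert m S : Finset ℕ) := by
    intro x hx y hy hxy
    rw [Finset.mem_coe, Finset.mem_insert] at hx hy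
    rcases hx with rfl | hx <;> rcases hy with rfl | hy
    · rfl
    · rw [hf'm, hf'S y hy] at hxy
      exact absurd hxy (hbf y hy).ne'
    · rw [hf'm, hf'S x hx] at hxy
      exact absurd hxy (hbf x hx).ne
    · rw [hf'S x hx, hf'S y hy] at hxy
      exact hf hx hy hxy
  have hle : ∀ x ∈ insert m S, f' x ≤ b := by
    intro x hx
    rcases Finset.mem_insert.1 hx with rfl | hx
    · rw [hf'm]
    · rw [hf'S x hx]; exact (hbf x hx).le
  have hmark : ∀ y : Fin 4 → ℕ, (∀ i, y i ∈ insert m S) →
      mark b (fun i => f' (y i)) = fun i => if y i = m then none else some (f (y i)) := by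
    intro y hy
    funext i
    simp only [mark]
    by_cases h : y i = m
    · rw [if_pos h, if_pos (by rw [h, hf'm])]
    · have h1 : y i ∈ S := (Finset.mem_insert.1 (hy i)).resolve_left h
      rw [if_neg h, hf'S _ h1, if_neg (hbf _ h1).ne]
  -- the main direction
  have hmain : ∀ y : Fin 4 → ℕ, (∀ i, y i ∈ insert m S) → (∃ i, y i = m) → R y →
      R (fun i => f' (y i)) := by
    intro y hy hym hRy
    have hyinj : Function.Injective fun i => f' (y i) := fun i j hij =>
      hRy.1 (hinj (hy i) (hy j) hij)
    refine ⟨hyinj, ?_⟩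
    set t := Finset.univ.image (fun i => f' (y i)) with ht
    have hsup : t.sup id = b := by
      apply le_antisymm
      · refine Finset.sup_le fun x hx => ?_
        obtain ⟨i, _, rfl⟩ := Finset.mem_image.1 hx
        exact hle _ (hy i)
      · obtain ⟨i, hi⟩ := hym
        have : b ∈ t := Finset.mem_image.2 ⟨i, Finset.mem_univ _, by rw [hi, hf'm]⟩
        exact Finset.le_sup (f := id) this
    have hex : ∃ x, Enum t x ∧ mark (t.sup id) x ∈ D (t.sup id) := by
      refine ⟨fun i => f' (y i), ⟨hyinj, rfl⟩, ?_⟩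
      rw [hsup, hDb, hP]
      exact ⟨y, hy, hRy, hym, (hmark y hy).symm⟩
    have hord : Enum t (ord t) ∧ mark (t.sup id) (ord t) ∈ D (t.sup id) := by
      unfold ord
      rw [dif_pos hex]
      exact hex.choose_spec
    obtain ⟨⟨_, himg⟩, hmem⟩ := hord
    rw [hsup, hDb, hP] at hmem
    obtain ⟨y', hy', hRy', hym', hz⟩ := hmem
    rw [← hmark y' hy'] at hz
    have hcast : (fun i => f' (y' i)) = ord t := mark_injective b hz
    have himg2 : Finset.univ.image y' = Finset.univ.image y := by
      have h1 : (Finset.univ.image y').image f' = (Finset.univ.image y).image f' := by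
        rw [Finset.image_image, Finset.image_image]
        change Finset.univ.image (fun i => f' (y' i)) = Finset.univ.image (fun i => f' (y i))
        rw [hcast, himg]
      have hsub : ∀ y : Fin 4 → ℕ, (∀ i, y i ∈ insert m S) →
          ((Finset.univ.image y : Finset ℕ) : Set ℕ) ⊆ ((insert m S : Finset ℕ) : Set ℕ) := by
        intro y hy x hx
        obtain ⟨i, _, rfl⟩ := Finset.mem_image.1 (Finset.mem_coe.1 hx)
        exact hy i
      apply Finset.coe_injective
      refine (hinj.image_eq_image_iff (hsub y' hy') (hsub y hy)).1 ?_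
      rw [← Finset.coe_image, ← Finset.coe_image, h1]
    rw [← hcast, R_unique hRy' hRy himg2]
  refine ⟨f', hf'S, ?_, hinj, ?_⟩
  · rw [hf'm]
    exact fun h => (hlt b (Finset.mem_union_left _ h)).ne rfl
  · intro y hy
    by_cases hym : ∃ i, y i = m
    · refine ⟨fun h => ?_, hmain y hy hym⟩
      have hyinj : Function.Injective y := by
        intro i j hij
        exact h.1 (show f' (y i) = f' (y j) by rw [hij])
      obtain ⟨s, hs⟩ : ∃ s, s = Finset.univ.image y := ⟨_, rfl⟩
      have hcard : s.card = 4 := by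
        rw [hs, Finset.card_image_of_injective _ hyinj]; rfl
      have hen := ord_enum hcard
      have hmem : ∀ i, ord s i ∈ insert m S := by
        intro i
        have h1 : ord s i ∈ s := hen.mem i
        have h2 : s ⊆ insert m S := by
          rw [hs]
          intro x hx
          obtain ⟨j, _, hj⟩ := Finset.mem_image.1 hx
          rw [← hj]; exact hy j
        exact h2 h1
      have hmi : ∃ i, ord s i = m := by
        obtain ⟨i, hi⟩ := hym
        have h1 : m ∈ s := by
          rw [hs]; exact Finset.mem_image.2 ⟨i, Finset.mem_univ _, hi⟩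
        exact hen.exists_of_mem h1
      have h2 := hmain (ord s) hmem hmi (R_ord hcard)
      have h3 : (fun i => f' (ord s i)) = fun i => f' (y i) := by
        refine R_unique h2 h ?_
        change Finset.univ.image (f' ∘ (ord s)) = Finset.univ.image (f' ∘ y)
        rw [← Finset.image_image, ← Finset.image_image, hen.2, hs]
      have h4 : ord s = y := by
        funext i
        exact hinj (hmem i) (hy i) (congrFun h3 i)
      rw [← h4]
      exact R_ord hcard
    · push Not at hym
      have hyS : ∀ i, y i ∈ S := fun i => (Finset.mem_insert.1 (hy i)).resolve_left (hym i)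
      have : (fun i => f' (y i)) = fun i => f (y i) := funext fun i => hf'S _ (hyS i)
      rw [this]
      exact hR y hyS

/-- Repeated extension with avoidance. -/
theorem extension_finset (S : Finset ℕ) (f : ℕ → ℕ) (hf : Set.InjOn f S)
    (hR : ∀ y : Fin 4 → ℕ, (∀ i, y i ∈ S) → (R (fun i => f (y i)) ↔ R y))
    (F T : Finset ℕ) :
    ∃ f' : ℕ → ℕ, (∀ x ∈ S, f' x = f x) ∧ (∀ x ∈ T, x ∉ S → f' x ∉ F) ∧
      Set.InjOn f' (S ∪ T : Finset ℕ) ∧
      ∀ y : Fin 4 → ℕ, (∀ i, y i ∈ S ∪ T) → (R (fun i => f' (y i)) ↔ R y) := by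
  classical
  induction T using Finset.induction_on with
  | empty =>
    refine ⟨f, fun _ _ => rfl, fun x hx => absurd hx (Finset.notMem_empty x), ?_, ?_⟩
    · rwa [Finset.union_empty]
    · rwa [Finset.union_empty]
  | insert m T _ ih =>
    obtain ⟨f', h1, h2, h3, h4⟩ := ih
    by_cases hm : m ∈ S ∪ T
    · have heq : S ∪ insert m T = S ∪ T := by
        rw [Finset.union_insert, Finset.insert_eq_of_mem hm]
      rw [heq]
      refine ⟨f', h1, ?_, h3, h4⟩
      intro x hx hxS
      rcases Finset.mem_insert.1 hx with rfl | hx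
      · exact h2 x ((Finset.mem_union.1 hm).resolve_left hxS) hxS
      · exact h2 x hx hxS
    · obtain ⟨f'', g1, g2, g3, g4⟩ := extension (S ∪ T) f' h3 h4 m hm F
      have heq : S ∪ insert m T = insert m (S ∪ T) := Finset.union_insert ..
      rw [heq]
      refine ⟨f'', ?_, ?_, g3, g4⟩
      · intro x hx
        rw [g1 x (Finset.mem_union_left _ hx), h1 x hx]
      · intro x hx hxS
        rcases Finset.mem_insert.1 hx with rfl | hx
        · exact g2
        · rw [g1 x (Finset.mem_union_right _ hx)]
          exact h2 x hx hxS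

/-! ### The first-order structure -/

/-- One quaternary relation symbol. -/
inductive Sym : ℕ → Type
  | quad : Sym 4

/-- The language with one quaternary relation symbol. -/
def L4 : FirstOrder.Language.{0, 0} := ⟨fun _ => Empty, Sym⟩

instance : L4.IsRelational := fun _ => inferInstanceAs (IsEmpty Empty)

/-- The symbol. -/
def rr : L4.Relations 4 := Sym.quad

/-- The structure on `ℕ`. -/
instance str : L4.Structure ℕ where
  funMap := fun f => Empty.elim f
  RelMap := fun r x => match r, x with
    | Sym.quad, x => R x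

theorem relMap_iff (x : Fin 4 → ℕ) : RelMap rr x ↔ R x := Iff.rfl

theorem rel_cases {P : (n : ℕ) → L4.Relations n → Prop} (h : P 4 rr) (n : ℕ) (r : L4.Relations n) :
    P n r := by
  cases r
  exact h

/-- A partial isomorphism gives an embedding of a substructure. -/
def toEmb (V : L4.Substructure ℕ) (f : ℕ → ℕ) (hinj : Set.InjOn f V)
    (hR : ∀ y : Fin 4 → ℕ, (∀ i, y i ∈ V) → (R (fun i => f (y i)) ↔ R y)) : V ↪[L4] ℕ where
  toFun x := f x
  inj' x y h := Subtype.ext (hinj x.2 y.2 h)
  map_fun' := fun f => Empty.elim f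
  map_rel' := by
    intro n r x
    revert x
    refine rel_cases (P := fun n r => ∀ x : Fin n → V,
      RelMap r ((fun x : V => f x) ∘ x) ↔ RelMap r x) ?_ n r
    intro x
    exact hR (fun i => (x i : ℕ)) fun i => (x i).2

theorem toEmb_apply (V : L4.Substructure ℕ) (f : ℕ → ℕ) (hinj hR) (x : V) :
    toEmb V f hinj hR x = f x := rfl

/-- The relation in terms of embeddings. -/
theorem emb_rel {A : Type} [L4.Structure A] (f : A ↪[L4] ℕ) (x : Fin 4 → A) :
    R (fun i => f (x i)) ↔ RelMap rr x := f.map_rel rr x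

/-- Two embeddings of the same structure give a partial isomorphism of `ℕ`. -/
theorem partial_of_embeddings {A : Type} [L4.Structure A] [Finite A] (f g : A ↪[L4] ℕ) :
    ∃ (S : Finset ℕ) (h : ℕ → ℕ), (∀ x, x ∈ S ↔ ∃ a, f a = x) ∧ (∀ a, h (f a) = g a) ∧
      Set.InjOn h S ∧ ∀ y : Fin 4 → ℕ, (∀ i, y i ∈ S) → (R (fun i => h (y i)) ↔ R y) := by
  classical
  have : Fintype A := Fintype.ofFinite A
  let S : Finset ℕ := Finset.univ.image f
  have hS : ∀ x, x ∈ S ↔ ∃ a, f a = x := by intro x; simp [S]
  let h : ℕ → ℕ := fun x => if hx : ∃ a, f a = x then g hx.choose else 0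
  have hh : ∀ a, h (f a) = g a := by
    intro a
    have hx : ∃ b, f b = f a := ⟨a, rfl⟩
    have h1 : hx.choose = a := f.injective hx.choose_spec
    simp only [h]
    rw [dif_pos hx, h1]
  refine ⟨S, h, hS, hh, ?_, ?_⟩
  · intro x hx y hy hxy
    obtain ⟨a, rfl⟩ := (hS x).1 hx
    obtain ⟨b, rfl⟩ := (hS y).1 hy
    rw [hh, hh] at hxy
    rw [g.injective hxy]
  · intro y hy
    choose a ha using fun i => (hS (y i)).1 (hy i)
    have e1 : (fun i => h (y i)) = fun i => g (a i) := funext fun i => by rw [← ha, hh]
    have e2 : y = fun i => f (a i) := funext fun i => (ha i).symm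
    rw [e1, emb_rel, e2, emb_rel]

theorem homogeneous : L4.IsUltrahomogeneous ℕ := by
  rw [isUltrahomogeneous_iff_IsExtensionPair Structure.cg_of_countable,
    isExtensionPair_iff_exists_embedding_closure_singleton_sup]
  intro S hS f m
  have hfin : Finite S := hS.finite
  obtain ⟨T, h, hT, hh, hinj, hR⟩ := partial_of_embeddings S.subtype f
  obtain ⟨h', h1, -, h3, h4⟩ := extension_finset T h hinj hR ∅ {m}
  have hmem : ∀ x ∈ (Substructure.closure L4 {m} ⊔ S : L4.Substructure ℕ), x ∈ T ∪ {m} := by
    intro x hx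
    have h5 : (Substructure.closure L4 {m} ⊔ S : L4.Substructure ℕ) =
        Substructure.closure L4 ({m} ∪ (S : Set ℕ)) := by
      rw [Substructure.closure_union, Substructure.closure_eq]
    rw [h5, Substructure.mem_closure_iff_of_isRelational] at hx
    rcases hx with hx | hx
    · exact Finset.mem_union_right _ (Finset.mem_singleton.2 hx)
    · exact Finset.mem_union_left _ ((hT x).2 ⟨⟨x, hx⟩, rfl⟩)
  refine ⟨toEmb _ h' (h3.mono fun x hx => hmem x hx) fun y hy => h4 y fun i => hmem _ (hy i), ?_⟩
  ext x
  rw [Embedding.comp_apply, toEmb_apply, Substructure.coe_inclusion]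
  change f x = h' (x : ℕ)
  exact ((h1 _ ((hT _).2 ⟨x, rfl⟩)).trans (hh x)).symm

theorem strongAmalgamation : StrongAmalgamation (L4.age ℕ) := by
  classical
  rintro A B C f g ⟨hA, -⟩ ⟨hB, ⟨eB⟩⟩ ⟨hC, ⟨eC⟩⟩
  have fA : Finite A := hA.finite
  have fB : Finite B := hB.finite
  have fC : Finite C := hC.finite
  have : Fintype B := Fintype.ofFinite B
  have : Fintype C := Fintype.ofFinite C
  obtain ⟨S, h, hS, hh, hinj, hR⟩ := partial_of_embeddings (eB.comp f) (eC.comp g)
  obtain ⟨h', h1, h2, h3, h4⟩ := extension_finset S h hinj hR (Finset.univ.image eC)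
    (Finset.univ.image eB)
  let k : B ↪[L4] ℕ :=
    { toFun := fun b => h' (eB b)
      inj' := by
        intro b b' hb
        refine eB.injective (h3 ?_ ?_ hb)
        · exact Finset.mem_union_right _ (Finset.mem_image_of_mem _ (Finset.mem_univ _))
        · exact Finset.mem_union_right _ (Finset.mem_image_of_mem _ (Finset.mem_univ _))
      map_fun' := fun f => Empty.elim f
      map_rel' := by
        intro n r x
        revert x
        refine rel_cases (P := fun n r => ∀ x : Fin n → B,
          RelMap r ((fun b => h' (eB b)) ∘ x) ↔ RelMap r x) ?_ n r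
        intro x
        rw [← emb_rel eB]
        exact h4 (fun i => eB (x i)) fun i =>
          Finset.mem_union_right _ (Finset.mem_image_of_mem _ (Finset.mem_univ _)) }
  have hk : ∀ b, k b = h' (eB b) := fun _ => rfl
  let V : L4.Substructure ℕ := Substructure.closure L4 (Set.range k ∪ Set.range eC)
  have hVk : ∀ b, k b ∈ V := fun b => Substructure.subset_closure (Or.inl ⟨b, rfl⟩)
  have hVC : ∀ c, eC c ∈ V := fun c => Substructure.subset_closure (Or.inr ⟨c, rfl⟩)
  refine ⟨⟨V, inferInstance⟩, k.codRestrict V hVk, eC.codRestrict V hVC, ?_, ?_, ?_⟩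
  · refine ⟨?_, ⟨V.subtype⟩⟩
    refine (Substructure.fg_iff_structure_fg _).1 (Substructure.fg_closure ?_)
    exact (Set.finite_range _).union (Set.finite_range _)
  · intro a
    apply Subtype.ext
    change k (f a) = eC (g a)
    exact (h1 _ ((hS _).2 ⟨a, rfl⟩)).trans (hh a)
  · intro b c hbc
    have h5 : k b = eC c := congrArg Subtype.val hbc
    by_cases hb : eB b ∈ S
    · obtain ⟨a, ha⟩ := (hS _).1 hb
      have h6 : f a = b := eB.injective ha
      refine ⟨a, h6, ?_⟩
      apply eC.injective
      rw [← h5, hk, h1 _ hb, ← h6]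
      exact (hh a).symm
    · exfalso
      refine h2 (eB b) (Finset.mem_image_of_mem _ (Finset.mem_univ _)) hb ?_
      rw [← hk, h5]
      exact Finset.mem_image_of_mem _ (Finset.mem_univ _)

theorem no_action (G : Type u) [Group G] [MulAction G ℕ] (ha : ActsByAutomorphisms L4 G ℕ) :
    ¬ SharplyTransitive L4 G ℕ 2 := by
  intro hs
  have hrel : ∀ (v : Fin 4 → Fin 2) (a : Fin 2 → ℕ), ¬ R (fun i => a (v i)) := by
    intro v a h
    have h1 : Function.Injective v := fun i j hij => h.1 (show a (v i) = a (v j) by rw [hij])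
    have := Fintype.card_le_of_injective v h1
    simp at this
  have htype : ∀ a b : Fin 2 → ℕ, SameType L4 a b := by
    intro a b n r
    refine rel_cases (P := fun n r => ∀ v : Fin n → Fin 2,
      RelMap r (fun i => a (v i)) ↔ RelMap r (fun i => b (v i))) ?_ n r
    intro v
    exact iff_of_false (hrel v a) (hrel v b)
  have hinj : ∀ a b : ℕ, a ≠ b → Function.Injective ![a, b] := by
    intro a b hab i j hij
    fin_cases i <;> fin_cases j <;> simp_all
  obtain ⟨g, hg, -⟩ := hs ![0, 1] ![1, 0] (hinj 0 1 (by norm_num)) (hinj 1 0 (by norm_num))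
    (htype _ _)
  have hg0 : g • (0 : ℕ) = 1 := hg 0
  have hg1 : g • (1 : ℕ) = 0 := hg 1
  -- an element fixing two points is trivial
  have hfix : ∀ (k : G) (a b : ℕ), a ≠ b → k • a = a → k • b = b → k = 1 := by
    intro k a b hab h1 h2
    obtain ⟨k', _, hk'⟩ := hs ![a, b] ![a, b] (hinj a b hab) (hinj a b hab) (htype _ _)
    rw [hk' k, hk' 1]
    · intro i; exact one_smul _ _
    · intro i
      fin_cases i
      · exact h1
      · exact h2
  have hgg : ∀ x : ℕ, g • g • x = x := by
    have h1 : g * g = 1 := by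
      refine hfix _ 0 1 (by norm_num) ?_ ?_
      · rw [mul_smul, hg0, hg1]
      · rw [mul_smul, hg1, hg0]
    intro x
    rw [← mul_smul, h1, one_smul]
  obtain ⟨c, hc0, hc1, hgc⟩ : ∃ c : ℕ, c ≠ 0 ∧ c ≠ 1 ∧ g • c ≠ c := by
    by_contra hcon
    push Not at hcon
    have h1 : g = 1 := hfix g 2 3 (by norm_num) (hcon 2 (by norm_num) (by norm_num))
      (hcon 3 (by norm_num) (by norm_num))
    rw [h1, one_smul] at hg0
    exact absurd hg0 (by norm_num)
  have hgc0 : g • c ≠ 0 := fun h => hc1 (by rw [← hgg c, h, hg0])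
  have hgc1 : g • c ≠ 1 := fun h => hc0 (by rw [← hgg c, h, hg1])
  obtain ⟨s, hsdef⟩ : ∃ s : Finset ℕ, s = {0, 1, c, g • c} := ⟨_, rfl⟩
  have hcard : s.card = 4 := by
    rw [hsdef, Finset.card_insert_of_notMem, Finset.card_insert_of_notMem,
      Finset.card_insert_of_notMem, Finset.card_singleton]
    · rw [Finset.mem_singleton]; exact hgc.symm
    · simp only [Finset.mem_insert, Finset.mem_singleton]
      rintro (h | h)
      · exact hc1 h.symm
      · exact hgc1 h.symm
    · simp only [Finset.mem_insert, Finset.mem_singleton]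
      rintro (h | h | h)
      · norm_num at h
      · exact hc0 h.symm
      · exact hgc0 h.symm
  have hRs := R_ord hcard
  have hen := ord_enum hcard
  have hgR : R (fun i => g • ord s i) := (ha g 4 rr (ord s)).2 hRs
  have hginv : s.image (fun x => g • x) = s := by
    rw [hsdef]
    simp only [Finset.image_insert, Finset.image_singleton, hg0, hg1, hgg]
    ext x
    simp only [Finset.mem_insert, Finset.mem_singleton]
    tauto
  have heq : (fun i => g • ord s i) = ord s := by
    refine R_unique hgR hRs ?_
    have h1 : Finset.univ.image (fun i => g • ord s i) =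
        (Finset.univ.image (ord s)).image (fun x => g • x) := by
      rw [Finset.image_image]; rfl
    rw [h1, hen.2, hginv]
  obtain ⟨i, hi⟩ := hen.exists_of_mem (m := 0) (by rw [hsdef]; simp)
  have h1 := congrFun heq i
  simp only [hi, hg0] at h1
  exact absurd h1 (by norm_num)

/-- **A Fraïssé structure without structurally sharply 2-transitive actions.** -/
theorem result : ∃ (L : FirstOrder.Language.{0, 0}) (M : Type) (_ : L.Structure M),
    L.IsRelational ∧ Countable M ∧ Infinite M ∧ L.IsUltrahomogeneous M ∧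
      StrongAmalgamation (L.age M) ∧
      ∀ (G : Type u) [Group G] [MulAction G M],
        ActsByAutomorphisms L G M → ¬ SharplyTransitive L G M 2 :=
  ⟨L4, ℕ, str, inferInstance, inferInstance, inferInstance, homogeneous, strongAmalgamation,
    fun G _ _ ha => no_action G ha⟩

end Pool.Agent.Results.MP_d71e54_al.RigidQuadruples
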